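import Pool.Agent.T6.H87.CNB.Defs

/-! Project CNB (helper87), module CLS. -/

set_option autoImplicit false

namespace Pool.Agent.T6.H87.CNB

namespace CLS

/-- a predicate all of whose solutions are congruent -/
theorem one_class (m : ℕ) (hm : 0 < m) (D : ℕ → Prop) (h : ∀ v v', D v → D v' → v ≡ v' [MOD m]) :
    ∃ b, b < m ∧ ∀ v, D v → v % m = b := by
  by_cases hD : ∃ v, D v
  · obtain ⟨v0, h0⟩ := hD
    exact ⟨v0 % m, Nat.mod_lt _ hm, fun v hv => h v v0 hv h0⟩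
  · push Not at hD
    exact ⟨0, hm, fun v hv => absurd hv (hD v)⟩

theorem uu_cancel {m q u0 v v' : ℕ} (hc : Nat.Coprime m (8 * q))
    (h : uu q u0 v ≡ uu q u0 v' [MOD m]) : v ≡ v' [MOD m] := by
  unfold uu at h
  have h1 : 64 * q ^ 2 * v ≡ 64 * q ^ 2 * v' [MOD m] := Nat.ModEq.add_left_cancel' u0 h
  have e : 64 * q ^ 2 = (8 * q) ^ 2 := by ring
  rw [e] at h1
  exact Nat.ModEq.cancel_left_of_coprime (Nat.Coprime.pow_right 2 hc) h1

theorem four_cancel {m q a b : ℕ} (hc : Nat.Coprime m (8 * q))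
    (h : 4 * q ^ 2 * a ≡ 4 * q ^ 2 * b [MOD m]) : a ≡ b [MOD m] := by
  have h1 : 16 * (4 * q ^ 2 * a) ≡ 16 * (4 * q ^ 2 * b) [MOD m] := h.mul_left 16
  have ea : 16 * (4 * q ^ 2 * a) = (8 * q) ^ 2 * a := by ring
  have eb : 16 * (4 * q ^ 2 * b) = (8 * q) ^ 2 * b := by ring
  rw [ea, eb] at h1
  exact Nat.ModEq.cancel_left_of_coprime (Nat.Coprime.pow_right 2 hc) h1

theorem uu_pos {q u0 v : ℕ} (hu : 1 ≤ u0) : 1 ≤ uu q u0 v := by
  unfold uu
  omega

theorem four_pos {q u0 v : ℕ} (hq : 1 ≤ q) (hu : 1 ≤ u0) : 4 ≤ 4 * q ^ 2 * uu q u0 v := by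
  have h1 := uu_pos (q := q) (v := v) hu
  have h2 : 1 ≤ q ^ 2 := Nat.one_le_pow _ _ hq
  nlinarith

end CLS

open CLS in
theorem cls : StmCLS := by
  intro q u0 hq hu
  refine ⟨?_, ?_⟩
  · intro p hp hpq
    have hm : 0 < p ^ 2 := pow_pos hp.pos 2
    have hc : Nat.Coprime (p ^ 2) (8 * q) :=
      Nat.Coprime.pow_left 2 ((Nat.Prime.coprime_iff_not_dvd hp).2 hpq)
    obtain ⟨b0, h0, h0'⟩ := one_class (p ^ 2) hm (fun v => p ^ 2 ∣ uu q u0 v) (by
      intro v v' hv hv'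
      apply uu_cancel hc
      exact ((Nat.modEq_zero_iff_dvd).2 hv).trans ((Nat.modEq_zero_iff_dvd).2 hv').symm)
    obtain ⟨b1, h1, h1'⟩ := one_class (p ^ 2) hm (fun v => p ^ 2 ∣ 4 * q ^ 2 * uu q u0 v - 1) (by
      intro v v' hv hv'
      apply uu_cancel hc
      apply four_cancel hc
      have key : ∀ w, p ^ 2 ∣ 4 * q ^ 2 * uu q u0 w - 1 → 4 * q ^ 2 * uu q u0 w ≡ 1 [MOD p ^ 2] := by
        intro w hw
        have hpos := four_pos (v := w) hq hu
        exact ((Nat.modEq_iff_dvd' (by omega)).2 hw).symm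
      exact (key v hv).trans (key v' hv').symm)
    obtain ⟨b2, h2, h2'⟩ := one_class (p ^ 2) hm (fun v => p ^ 2 ∣ 4 * q ^ 2 * uu q u0 v + 1) (by
      intro v v' hv hv'
      apply uu_cancel hc
      apply four_cancel hc
      exact Nat.ModEq.add_right_cancel' 1
        (((Nat.modEq_zero_iff_dvd).2 hv).trans ((Nat.modEq_zero_iff_dvd).2 hv').symm))
    refine ⟨![b0, b1, b2], ?_, ?_⟩
    · intro i
      fin_cases i
      · exact h0
      · exact h1
      · exact h2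
    · rintro v (hv | hv | hv)
      · exact ⟨0, h0' v hv⟩
      · exact ⟨1, h1' v hv⟩
      · exact ⟨2, h2' v hv⟩
  · refine ⟨4 * q ^ 2 * (u0 + 64 * q ^ 2) + 1, ?_⟩
    intro M v p hvM hp hbad
    have hup := uu_pos (q := q) (v := v) hu
    have hfp := four_pos (v := v) hq hu
    have hle : p ^ 2 ≤ 4 * q ^ 2 * uu q u0 v + 1 := by
      have hq2 : 1 ≤ 4 * q ^ 2 := by
        have := Nat.one_le_pow 2 q hq
        omega
      rcases hbad with h | h | h
      · have h1 := Nat.le_of_dvd (by omega) h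
        have h2 : uu q u0 v ≤ 4 * q ^ 2 * uu q u0 v := Nat.le_mul_of_pos_left _ (by omega)
        omega
      · have h1 := Nat.le_of_dvd (by omega) h
        omega
      · exact Nat.le_of_dvd (by omega) h
    have hu1 : uu q u0 v ≤ (u0 + 64 * q ^ 2) * M := by
      unfold uu
      have h1 : u0 ≤ u0 * M := Nat.le_mul_of_pos_right _ (by omega)
      have h2 : 64 * q ^ 2 * v ≤ 64 * q ^ 2 * M := Nat.mul_le_mul_left _ hvM.le
      rw [add_mul]
      omega
    calc p ^ 2 ≤ 4 * q ^ 2 * uu q u0 v + 1 := hle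
      _ ≤ 4 * q ^ 2 * ((u0 + 64 * q ^ 2) * M) + M :=
          Nat.add_le_add (Nat.mul_le_mul_left _ hu1) (by omega)
      _ = (4 * q ^ 2 * (u0 + 64 * q ^ 2) + 1) * M := by ring

end Pool.Agent.T6.H87.CNB
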