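import Pool.Agent.T6.H87.CNB.Defs

/-! Project CNB: module DISC. -/

set_option autoImplicit false

namespace Pool.Agent.T6.H87.CNB

open Finset Polynomial
open Pool.Agent.T6.H35.EQ (Irr)
open Pool.Agent.H469R2.NK (e)

namespace ModDISC

theorem lin_deg {a b : ℝ} (ha : a ≠ 0) : (C a * X + C b : ℝ[X]).natDegree = 1 :=
  natDegree_linear ha

theorem lin_lead {a b : ℝ} (ha : a ≠ 0) : (C a * X + C b : ℝ[X]).leadingCoeff = a :=
  leadingCoeff_linear ha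

theorem FF_deg {q u0 : ℕ} (hq : 1 ≤ q) : (FF q u0).natDegree = 3 ∧
    (FF q u0).leadingCoeff = ((16 * q ^ 4 * (64 * q ^ 2) ^ 3 : ℕ) : ℝ) := by
  have hq0 : (q : ℝ) ≠ 0 := by
    have : q ≠ 0 := by omega
    exact_mod_cast this
  have ha : (64 * (q : ℝ) ^ 2) ≠ 0 := by positivity
  set U : ℝ[X] := C (64 * (q : ℝ) ^ 2) * X + C (u0 : ℝ) with hU
  have hU1 : U.natDegree = 1 := lin_deg ha
  have hU2 : U.leadingCoeff = 64 * (q : ℝ) ^ 2 := lin_lead ha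
  have hU0 : U ≠ 0 := by
    intro h
    rw [h, natDegree_zero] at hU1
    omega
  have hV1 : (C (16 * (q : ℝ) ^ 4) * U ^ 2).natDegree = 2 := by
    rw [natDegree_C_mul (by positivity), natDegree_pow, hU1]
  have hV2 : (C (16 * (q : ℝ) ^ 4) * U ^ 2).leadingCoeff =
      16 * (q : ℝ) ^ 4 * (64 * (q : ℝ) ^ 2) ^ 2 := by
    rw [leadingCoeff_mul, leadingCoeff_C, leadingCoeff_pow, hU2]
  set V : ℝ[X] := C (16 * (q : ℝ) ^ 4) * U ^ 2 - C 1 with hV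
  have hV3 : V.natDegree = 2 := by rw [hV, natDegree_sub_C, hV1]
  have hV4 : V.leadingCoeff = 16 * (q : ℝ) ^ 4 * (64 * (q : ℝ) ^ 2) ^ 2 := by
    rw [leadingCoeff, hV3, hV, coeff_sub, coeff_C_of_ne_zero (by norm_num), sub_zero, ← hV2,
      leadingCoeff, hV1]
  have hV0 : V ≠ 0 := by
    intro h
    rw [h, natDegree_zero] at hV3
    omega
  have hFF : FF q u0 = U * V := by
    rw [hV, C_1]; rfl
  constructor
  · rw [hFF, natDegree_mul hU0 hV0, hU1, hV3]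
  · rw [hFF, leadingCoeff_mul, hU2, hV4]
    push_cast
    ring

/-- the phase -/
theorem phase {d : ℕ} (hd : 1 ≤ d) (P : ℝ[X]) (hP : P.natDegree = d) {q u0 : ℕ} (hq : 1 ≤ q)
    (m b h : ℕ) (hm : 1 ≤ m) (ρ : ℝ) :
    Pool.Agent.T6.H35.EQ.Ph (3 * d - 1)
      ((((h * (16 * q ^ 4 * (64 * q ^ 2) ^ 3) ^ d * m ^ (3 * d) : ℕ) : ℤ) : ℝ) * P.leadingCoeff)
      (fun w : ℕ => (h : ℝ) * ((P.comp (FF q u0)).eval (((b + m * w : ℕ)) : ℝ) + ρ)) := by
  obtain ⟨hF1, hF2⟩ := FF_deg (u0 := u0) hq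
  have hm0 : (m : ℝ) ≠ 0 := by
    have : m ≠ 0 := by omega
    exact_mod_cast this
  set R : ℝ[X] := C (m : ℝ) * X + C (b : ℝ) with hR
  have hR1 : R.natDegree = 1 := lin_deg hm0
  have hR2 : R.leadingCoeff = m := lin_lead hm0
  set G2 : ℝ[X] := (P.comp (FF q u0)).comp R with hG2
  have hG1 : (P.comp (FF q u0)).natDegree = 3 * d := by
    rw [natDegree_comp, hP, hF1, mul_comm]
  have hGl : (P.comp (FF q u0)).leadingCoeff =
      P.leadingCoeff * ((16 * q ^ 4 * (64 * q ^ 2) ^ 3 : ℕ) : ℝ) ^ d := by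
    rw [leadingCoeff_comp (by rw [hF1]; norm_num), hF2, hP]
  have hG2d : G2.natDegree = 3 * d := by
    rw [hG2, natDegree_comp, hG1, hR1, mul_one]
  have hG2l : G2.leadingCoeff =
      P.leadingCoeff * ((16 * q ^ 4 * (64 * q ^ 2) ^ 3 : ℕ) : ℝ) ^ d * (m : ℝ) ^ (3 * d) := by
    rw [hG2, leadingCoeff_comp (by rw [hR1]; norm_num), hGl, hR2, hG1]
  set Q : ℝ[X] := C (h : ℝ) * (G2 + C ρ) with hQ
  have hQd : Q.natDegree ≤ 3 * d - 1 + 1 := by
    have e1 : Q.natDegree ≤ (G2 + C ρ).natDegree := natDegree_C_mul_le _ _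
    rw [natDegree_add_C, hG2d] at e1
    omega
  have hk : 3 * d - 1 + 1 = 3 * d := by omega
  have hQc : Q.coeff (3 * d - 1 + 1) =
      (((h * (16 * q ^ 4 * (64 * q ^ 2) ^ 3) ^ d * m ^ (3 * d) : ℕ) : ℤ) : ℝ) *
        P.leadingCoeff := by
    have hco : G2.coeff (3 * d) = P.leadingCoeff *
        ((16 * q ^ 4 * (64 * q ^ 2) ^ 3 : ℕ) : ℝ) ^ d * (m : ℝ) ^ (3 * d) := by
      rw [← hG2l, leadingCoeff, hG2d]
    rw [hk, hQ, coeff_C_mul, coeff_add, coeff_C_of_ne_zero (by omega), add_zero, hco]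
    push_cast
    ring
  have hmain := Pool.Agent.T6.H35.EQ.ph_poly (3 * d - 1) Q hQd
  rw [hQc] at hmain
  have hfun : (fun n : ℕ => Q.eval (n : ℝ)) =
      fun w : ℕ => (h : ℝ) * ((P.comp (FF q u0)).eval (((b + m * w : ℕ)) : ℝ) + ρ) := by
    funext w
    rw [hQ, eval_mul, eval_C, eval_add, eval_C, hG2, eval_comp, hR]
    have : eval (w : ℝ) (C (m : ℝ) * X + C (b : ℝ)) = (((b + m * w : ℕ)) : ℝ) := by
      simp
      ring
    rw [this]
  rw [hfun] at hmain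
  exact hmain

end ModDISC

open ModDISC

theorem dsc : StmDISC := by
  intro d hd
  obtain ⟨σ, hσ0, hσ1, Cw, hC1, hW⟩ :=
    Pool.Agent.T6.H35.EQ.weyl (3 * d - 1) (1 / 8) (by norm_num) (by norm_num)
  have hdR : (1 : ℝ) ≤ d := by exact_mod_cast hd
  set τ : ℝ := min (σ / 15) (1 / (16 * (10 + 12 * (d : ℝ)))) with hτ
  have hτ0 : 0 < τ := lt_min (by positivity) (by positivity)
  have hτ1 : τ ≤ σ / 15 := min_le_left _ _
  have hτ2 : τ ≤ 1 / (16 * (10 + 12 * (d : ℝ))) := min_le_right _ _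
  have hτ3 : τ * (10 + 12 * d) ≤ 1 / 16 := by
    have h1 : τ * (10 + 12 * d) ≤ 1 / (16 * (10 + 12 * (d : ℝ))) * (10 + 12 * d) :=
      mul_le_mul_of_nonneg_right hτ2 (by positivity)
    have h2 : 1 / (16 * (10 + 12 * (d : ℝ))) * (10 + 12 * d) = 1 / 16 := by
      field_simp
    linarith
  have hτ16 : τ ≤ 1 / 16 := by nlinarith
  refine ⟨τ, hτ0, hτ16, ?_⟩
  intro P hP q u0 hq hu0
  refine ⟨4 * Cw + 4, by linarith, ?_⟩
  set Z : ℝ := 2 * ((16 * q ^ 4 * (64 * q ^ 2) ^ 3 : ℕ) : ℝ) ^ d with hZ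
  have hZ0 : 0 ≤ Z := by positivity
  refine ⟨max 1 (max ⌈Z ^ (16 : ℝ)⌉₊ ⌈(2 : ℝ) ^ (1 / τ)⌉₊), ?_⟩
  intro M hM hI m b K hm1 hm2 hKM
  have hM1 : 1 ≤ M := (le_max_left _ _).trans hM
  have hMR : (1 : ℝ) ≤ M := by exact_mod_cast hM1
  have hM0 : (0 : ℝ) < M := by linarith
  have hMZ : Z ^ (16 : ℝ) ≤ M := by
    refine (Nat.le_ceil _).trans ?_
    exact_mod_cast ((le_max_left _ _).trans (le_max_right _ _)).trans hM
  have hM2 : (2 : ℝ) ^ (1 / τ) ≤ M := by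
    refine (Nat.le_ceil _).trans ?_
    exact_mod_cast ((le_max_right _ _).trans (le_max_right _ _)).trans hM
  have hZM : Z ≤ (M : ℝ) ^ (1 / 16 : ℝ) := by
    have h1 := Real.rpow_le_rpow (by positivity) hMZ (show (0 : ℝ) ≤ 1 / 16 by norm_num)
    rw [← Real.rpow_mul hZ0] at h1
    norm_num at h1
    exact h1
  have hMτ : (2 : ℝ) ≤ (M : ℝ) ^ τ := by
    have h1 := Real.rpow_le_rpow (by positivity) hM2 hτ0.le
    rw [← Real.rpow_mul (by norm_num), one_div, inv_mul_cancel₀ hτ0.ne', Real.rpow_one] at h1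
    exact h1
  set c : ℝ := 2 * (M : ℝ) ^ (-τ) with hc
  have hc0 : 0 ≤ c := by positivity
  have hc1 : c ≤ 1 := by
    rw [hc, Real.rpow_neg hM0.le]
    have : 0 < (M : ℝ) ^ τ := by positivity
    rw [← div_eq_mul_inv, div_le_one this]
    exact hMτ
  set x : ℕ → ℝ := fun w => (P.comp (FF q u0)).eval (((b + m * w : ℕ)) : ℝ) + (M : ℝ) ^ (-τ)
    with hx
  have hE : ∀ h : ℕ, 1 ≤ h → (h : ℝ) ≤ 2 * (M : ℝ) ^ (2 * (5 * τ)) →
      ‖∑ n ∈ range K, e (h * x n)‖ ≤ Cw * (M : ℝ) ^ (1 - σ) := by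
    intro h hh1 hh2
    refine hW M K _ _ hM1 hKM ?_ (phase hd P hP (u0 := u0) hq m b h hm1 ((M : ℝ) ^ (-τ)))
    refine Pool.Agent.T6.H35.EQ.Irr.mul hI ?_ ?_
    · have : h * (16 * q ^ 4 * (64 * q ^ 2) ^ 3) ^ d * m ^ (3 * d) ≠ 0 := by positivity
      exact_mod_cast this
    · have hr : |((((h * (16 * q ^ 4 * (64 * q ^ 2) ^ 3) ^ d * m ^ (3 * d) : ℕ) : ℤ)) : ℝ)| =
          (h : ℝ) * ((16 * q ^ 4 * (64 * q ^ 2) ^ 3 : ℕ) : ℝ) ^ d * (m : ℝ) ^ (3 * d) := by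
        rw [abs_of_nonneg (by positivity)]
        push_cast
        ring
      rw [hr]
      have hmp : (m : ℝ) ^ (3 * d) ≤ (M : ℝ) ^ (4 * τ * (3 * d)) := by
        have h1 := pow_le_pow_left₀ (by positivity) hm2 (3 * d)
        rw [← Real.rpow_natCast, ← Real.rpow_natCast, ← Real.rpow_mul hM0.le] at h1
        rw [← Real.rpow_natCast]
        push_cast at h1 ⊢
        exact h1
      calc (M : ℝ) ^ (1 / 8 : ℝ) *
            ((h : ℝ) * ((16 * q ^ 4 * (64 * q ^ 2) ^ 3 : ℕ) : ℝ) ^ d * (m : ℝ) ^ (3 * d))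
          ≤ (M : ℝ) ^ (1 / 8 : ℝ) *
            ((2 * (M : ℝ) ^ (2 * (5 * τ))) * ((16 * q ^ 4 * (64 * q ^ 2) ^ 3 : ℕ) : ℝ) ^ d *
              (M : ℝ) ^ (4 * τ * (3 * d))) := by
            gcongr
        _ = (M : ℝ) ^ (1 / 8 : ℝ) * (Z * (M : ℝ) ^ (τ * (10 + 12 * d))) := by
            have h2 : (M : ℝ) ^ (τ * (10 + 12 * d)) =
                (M : ℝ) ^ (2 * (5 * τ)) * (M : ℝ) ^ (4 * τ * (3 * d)) := by
              rw [← Real.rpow_add hM0]; congr 1; ring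
            rw [h2, hZ]; ring
        _ ≤ (M : ℝ) ^ (1 / 8 : ℝ) * ((M : ℝ) ^ (1 / 16 : ℝ) * (M : ℝ) ^ (1 / 16 : ℝ)) := by
            have h3 : (M : ℝ) ^ (τ * (10 + 12 * d)) ≤ (M : ℝ) ^ (1 / 16 : ℝ) :=
              Real.rpow_le_rpow_of_exponent_le hMR hτ3
            gcongr
        _ = (M : ℝ) ^ (1 / 4 : ℝ) := by
            rw [← Real.rpow_add hM0, ← Real.rpow_add hM0]
            norm_num
  have hd1 := Pool.Agent.T6.H35.EQ.disc (range K) x hMR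
    (show ((range K).card : ℝ) ≤ M by rw [card_range]; exact_mod_cast hKM)
    (show 0 < 5 * τ by linarith) hE hc0 hc1
  classical
  have hset : (range K).filter (fun w => Near (P.comp (FF q u0)) M τ (b + m * w)) =
      (range K).filter (fun n => Int.fract (x n) < c) := by
    ext w
    simp only [Finset.mem_filter]
    exact Iff.rfl
  have hcard : ((range K).filter (fun w => Near (P.comp (FF q u0)) M τ (b + m * w))).card =
      ((range K).filter (fun n => Int.fract (x n) < c)).card := by rw [hset]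
  rw [card_range] at hd1
  have hfin : 4 * (M : ℝ) ^ (2 * (5 * τ)) * (Cw * (M : ℝ) ^ (1 - σ)) +
      4 * (M : ℝ) ^ (1 - 5 * τ) ≤ (4 * Cw + 4) * (M : ℝ) ^ (1 - 5 * τ) := by
    have h1 : (M : ℝ) ^ (2 * (5 * τ)) * (M : ℝ) ^ (1 - σ) ≤ (M : ℝ) ^ (1 - 5 * τ) := by
      rw [← Real.rpow_add hM0]
      exact Real.rpow_le_rpow_of_exponent_le hMR (by linarith)
    have h2 : 4 * (M : ℝ) ^ (2 * (5 * τ)) * (Cw * (M : ℝ) ^ (1 - σ)) =
        4 * Cw * ((M : ℝ) ^ (2 * (5 * τ)) * (M : ℝ) ^ (1 - σ)) := by ring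
    rw [h2]
    have h3 : 4 * Cw * ((M : ℝ) ^ (2 * (5 * τ)) * (M : ℝ) ^ (1 - σ)) ≤
        4 * Cw * (M : ℝ) ^ (1 - 5 * τ) := mul_le_mul_of_nonneg_left h1 (by linarith)
    linarith
  rw [show (((range K).filter (fun w => Near (P.comp (FF q u0)) M τ (b + m * w))).card : ℝ) =
    (((range K).filter (fun n => Int.fract (x n) < c)).card : ℝ) by exact_mod_cast hcard]
  exact hd1.trans hfin

end Pool.Agent.T6.H87.CNB
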