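import Pool.Agent.T6.H35.EQ.Poly

/-!
# Project CNB (helper87), MP_8efaaa_nt: congruent numbers `n` with `P(n)` close to an integer

The numbers are `n = u (16 q ^ 4 u ^ 2 - 1)`, `u = u0 + 64 q ^ 2 v`.
-/

set_option autoImplicit false

namespace Pool.Agent.T6.H87.CNB

open Finset Polynomial
open Pool.Agent.T6.H35.EQ (Irr)

/-- `x² + a y² = z²`, `x² - a y² = t²` is solvable in positive integers -/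
def Congruent (a : ℕ) : Prop :=
  ∃ x y z t : ℕ, 0 < x ∧ 0 < y ∧ 0 < z ∧ 0 < t ∧ x ^ 2 + a * y ^ 2 = z ^ 2 ∧
    x ^ 2 = a * y ^ 2 + t ^ 2

/-- `u` -/
def uu (q u0 v : ℕ) : ℕ := u0 + 64 * q ^ 2 * v

/-- `n` -/
def nn (q u0 v : ℕ) : ℕ := uu q u0 v * (16 * q ^ 4 * uu q u0 v ^ 2 - 1)

/-- `n` as a polynomial in `v` -/
noncomputable def FF (q u0 : ℕ) : ℝ[X] :=
  (C (64 * (q : ℝ) ^ 2) * X + C (u0 : ℝ)) *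
    (C (16 * (q : ℝ) ^ 4) * (C (64 * (q : ℝ) ^ 2) * X + C (u0 : ℝ)) ^ 2 - 1)

/-- `G(v)` is within `M ^ (-τ)` of an integer -/
def Near (G : ℝ[X]) (M : ℕ) (τ : ℝ) (v : ℕ) : Prop :=
  Int.fract (G.eval (v : ℝ) + (M : ℝ) ^ (-τ)) < 2 * (M : ℝ) ^ (-τ)

/-- one of the three factors of `n` is divisible by `m` -/
def Bad (q u0 m v : ℕ) : Prop :=
  m ∣ uu q u0 v ∨ m ∣ 4 * q ^ 2 * uu q u0 v - 1 ∨ m ∣ 4 * q ^ 2 * uu q u0 v + 1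

open Classical in
/-- the expected number of near points in all progressions with small difference -/
def Disc (G : ℝ[X]) (M : ℕ) (τ A : ℝ) : Prop :=
  ∀ m b K : ℕ, 1 ≤ m → (m : ℝ) ≤ (M : ℝ) ^ (4 * τ) → K ≤ M →
    |(((range K).filter (fun w => Near G M τ (b + m * w))).card : ℝ) - 2 * (M : ℝ) ^ (-τ) * K| ≤
      A * (M : ℝ) ^ (1 - 5 * τ)

/-- EV: elementary facts about the family -/
def StmEV : Prop := ∀ q u0 v : ℕ, 1 ≤ q → 1 ≤ u0 →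
  (FF q u0).eval (v : ℝ) = (nn q u0 v : ℝ) ∧ Congruent (nn q u0 v) ∧
    nn q u0 v ≤ 16 * q ^ 4 * (uu q u0 v) ^ 3 ∧ StrictMono (nn q u0) ∧
    ∀ a : ℕ, 8 * q ∣ u0 + a → nn q u0 v ≡ a [MOD 8 * q]

/-- U0: the class of `u` -/
def StmU0 : Prop := ∀ q a : ℕ, 1 ≤ q → Squarefree (Nat.gcd a (8 * q)) →
  ∃ u0 : ℕ, 1 ≤ u0 ∧ 8 * q ∣ u0 + a ∧ ∀ p : ℕ, p.Prime → p ∣ 8 * q → ¬ p ^ 2 ∣ u0

/-- SQ: reason for not being squarefree -/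
def StmSQ : Prop := ∀ q u0 v : ℕ, 1 ≤ q → 1 ≤ u0 →
  (∀ p : ℕ, p.Prime → p ∣ 8 * q → ¬ p ^ 2 ∣ u0) → ¬ Squarefree (nn q u0 v) →
  ∃ p : ℕ, p.Prime ∧ ¬ p ∣ 8 * q ∧ Bad q u0 (p ^ 2) v

/-- CLS: the bad points lie in three classes modulo `p²`, and `p²` is at most `K M` -/
def StmCLS : Prop := ∀ q u0 : ℕ, 1 ≤ q → 1 ≤ u0 → (∀ p : ℕ, p.Prime → ¬ p ∣ 8 * q →
    ∃ b : Fin 3 → ℕ, (∀ i, b i < p ^ 2) ∧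
      ∀ v, Bad q u0 (p ^ 2) v → ∃ i, v % p ^ 2 = b i) ∧
  ∃ K : ℕ, ∀ M v p : ℕ, v < M → p.Prime → Bad q u0 (p ^ 2) v → p ^ 2 ≤ K * M

/-- PR: the sum over the odd primes -/
def StmPR : Prop := ∀ X : ℕ, ∑ p ∈ (Icc 3 X).filter Nat.Prime, 1 / (p : ℝ) ^ 2 ≤ 22 / 100

open Classical in
/-- BAD: few near points are bad -/
def StmBAD : Prop := ∀ (q u0 : ℕ) (τ A : ℝ), 1 ≤ q → 1 ≤ u0 → 0 < τ → τ ≤ 1 / 16 → 1 ≤ A →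
  ∃ B : ℝ, ∀ (M : ℕ) (G : ℝ[X]), 1 ≤ M → Disc G M τ A →
    (((range M).filter (fun v => Near G M τ v ∧
      ∃ p : ℕ, p.Prime ∧ ¬ p ∣ 8 * q ∧ Bad q u0 (p ^ 2) v)).card : ℝ) ≤
      132 / 100 * (M : ℝ) ^ (1 - τ) + B * (M : ℝ) ^ (1 - 2 * τ)

/-- SCL: good scales -/
def StmSCL : Prop := ∀ θ : ℝ, Irrational θ → ∀ M₀ : ℕ, ∃ M : ℕ, M₀ ≤ M ∧ Irr (M : ℝ) (1 / 4) θ

/-- DISC -/
def StmDISC : Prop := ∀ d : ℕ, 1 ≤ d → ∃ τ : ℝ, 0 < τ ∧ τ ≤ 1 / 16 ∧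
  ∀ P : ℝ[X], P.natDegree = d → ∀ q u0 : ℕ, 1 ≤ q → 1 ≤ u0 → ∃ A : ℝ, 1 ≤ A ∧ ∃ M₀ : ℕ,
    ∀ M : ℕ, M₀ ≤ M → Irr (M : ℝ) (1 / 4) P.leadingCoeff → Disc (P.comp (FF q u0)) M τ A

open Classical in
/-- GOOD: many near points with a squarefree value -/
def StmGOOD : Prop := ∀ d : ℕ, 1 ≤ d → ∃ τ : ℝ, 0 < τ ∧ τ ≤ 1 / 16 ∧
  ∀ P : ℝ[X], P.natDegree = d → Irrational P.leadingCoeff → ∀ q u0 : ℕ, 1 ≤ q → 1 ≤ u0 →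
    (∀ p : ℕ, p.Prime → p ∣ 8 * q → ¬ p ^ 2 ∣ u0) → ∀ M₀ : ℕ, ∃ M : ℕ, M₀ ≤ M ∧
      1 / 2 * (M : ℝ) ^ (1 - τ) ≤ (((range M).filter (fun v =>
        Near (P.comp (FF q u0)) M τ v ∧ Squarefree (nn q u0 v))).card : ℝ)

open Classical in
/-- the final statement -/
def StmEND : Prop := ∀ d : ℕ, 1 ≤ d → ∃ δ : ℝ, 0 < δ ∧ ∀ P : ℝ[X], P.natDegree = d →
  Irrational P.leadingCoeff → ∀ q a : ℕ, 1 ≤ q → Squarefree (Nat.gcd a (8 * q)) →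
    ∀ T₀ : ℕ, ∃ T : ℕ, T₀ ≤ T ∧ (T : ℝ) ^ (1 / 4 : ℝ) ≤
      (((Icc 1 T).filter (fun n => n ≡ a [MOD 8 * q] ∧ Squarefree n ∧ Congruent n ∧
        ∃ k : ℤ, |P.eval (n : ℝ) - k| ≤ (T : ℝ) ^ (-δ))).card : ℝ)

theorem assembly (h1 : StmEV) (h2 : StmU0) (h3 : StmSQ) (h4 : StmCLS) (h5 : StmPR)
    (h6 : StmCLS → StmPR → StmBAD) (h7 : StmSCL) (h8 : StmDISC)
    (h9 : StmSQ → StmBAD → StmSCL → StmDISC → StmGOOD)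
    (h10 : StmEV → StmU0 → StmGOOD → StmEND) : StmEND :=
  h10 h1 h2 (h9 h3 (h6 h4 h5) h7 h8)

end Pool.Agent.T6.H87.CNB
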