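import Pool.Agent.T6.H87.CNB.Defs

/-! Project CNB: module END. -/

set_option autoImplicit false

namespace Pool.Agent.T6.H87.CNB

open Finset Polynomial

theorem fin (hE : StmEV) (hU : StmU0) (hG : StmGOOD) : StmEND := by
  classical
  intro d hd
  obtain ⟨τ, hτ0, hτ1, hgood⟩ := hG d hd
  refine ⟨τ / 4, by positivity, ?_⟩
  intro P hP hirr q a hq hsf T₀
  obtain ⟨u0, hu1, hu2, hu3⟩ := hU q a hq hsf
  set CC : ℕ := 16 * q ^ 4 * (u0 + 64 * q ^ 2) ^ 3 with hCC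
  have hCC1 : 1 ≤ CC := Nat.one_le_iff_ne_zero.2 (by positivity)
  obtain ⟨M, hM, hcard⟩ := hgood P hP hirr q u0 hq hu1 hu3 (max T₀ ((16 * CC) ^ 2))
  have hMT : T₀ ≤ M := (le_max_left _ _).trans hM
  have hMC : (16 * CC) ^ 2 ≤ M := (le_max_right _ _).trans hM
  have hM16 : 16 * CC ≤ M := (Nat.le_self_pow (by norm_num) _).trans hMC
  have hM1 : 1 ≤ M := by omega
  have hMR : (1 : ℝ) ≤ M := by exact_mod_cast hM1
  have hM0 : (0 : ℝ) < M := by linarith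
  set T : ℕ := 16 * q ^ 4 * (u0 + 64 * q ^ 2 * M) ^ 3 with hT
  have hq4 : 1 ≤ q ^ 4 := Nat.one_le_pow _ _ hq
  have hq2 : 1 ≤ q ^ 2 := Nat.one_le_pow _ _ hq
  have hTM : M ≤ T := by
    have h1 : M ≤ u0 + 64 * q ^ 2 * M := by nlinarith
    have h2 : u0 + 64 * q ^ 2 * M ≤ (u0 + 64 * q ^ 2 * M) ^ 3 := Nat.le_self_pow (by norm_num) _
    calc M ≤ (u0 + 64 * q ^ 2 * M) ^ 3 := h1.trans h2
      _ = 1 * (u0 + 64 * q ^ 2 * M) ^ 3 := (one_mul _).symm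
      _ ≤ T := Nat.mul_le_mul_right _ (by omega)
  have hTC : T ≤ CC * M ^ 3 := by
    have h1 : u0 + 64 * q ^ 2 * M ≤ (u0 + 64 * q ^ 2) * M := by nlinarith
    calc T ≤ 16 * q ^ 4 * ((u0 + 64 * q ^ 2) * M) ^ 3 :=
          Nat.mul_le_mul_left _ (Nat.pow_le_pow_left h1 3)
      _ = CC * M ^ 3 := by rw [hCC]; ring
  have hT4 : T ≤ M ^ 4 := by
    calc T ≤ CC * M ^ 3 := hTC
      _ ≤ M * M ^ 3 := Nat.mul_le_mul_right _ (by omega)
      _ = M ^ 4 := by ring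
  have hTR1 : (1 : ℝ) ≤ T := by exact_mod_cast hM1.trans hTM
  refine ⟨T, hMT.trans hTM, ?_⟩
  -- the counting inequality
  have hnum : (T : ℝ) ^ (1 / 4 : ℝ) ≤ 1 / 2 * (M : ℝ) ^ (1 - τ) := by
    have h1 : (T : ℝ) ≤ (1 / 2 * (M : ℝ) ^ (15 / 16 : ℝ)) ^ 4 := by
      have h2 : (T : ℝ) ≤ CC * (M : ℝ) ^ 3 := by exact_mod_cast hTC
      have h3 : (16 : ℝ) * CC ≤ (M : ℝ) ^ (3 / 4 : ℝ) := by
        have h4 : ((16 * CC : ℕ) : ℝ) ^ 2 ≤ M := by exact_mod_cast hMC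
        have h5 : (1 : ℝ) ≤ ((16 * CC : ℕ) : ℝ) := by
          have : 1 ≤ 16 * CC := by omega
          exact_mod_cast this
        have h6 := Real.rpow_le_rpow (by positivity) h4 (show (0 : ℝ) ≤ 3 / 4 by norm_num)
        have h7 : (((16 * CC : ℕ) : ℝ) ^ 2) ^ (3 / 4 : ℝ) = ((16 * CC : ℕ) : ℝ) ^ (3 / 2 : ℝ) := by
          rw [← Real.rpow_natCast, ← Real.rpow_mul (by positivity)]
          norm_num
        rw [h7] at h6
        have h8 : ((16 * CC : ℕ) : ℝ) ^ (1 : ℝ) ≤ ((16 * CC : ℕ) : ℝ) ^ (3 / 2 : ℝ) :=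
          Real.rpow_le_rpow_of_exponent_le h5 (by norm_num)
        rw [Real.rpow_one] at h8
        have h9 := h8.trans h6
        push_cast at h9
        exact h9
      have h4 : (1 / 2 * (M : ℝ) ^ (15 / 16 : ℝ)) ^ 4 = 1 / 16 * (M : ℝ) ^ (15 / 4 : ℝ) := by
        rw [mul_pow, ← Real.rpow_natCast ((M : ℝ) ^ (15 / 16 : ℝ)), ← Real.rpow_mul hM0.le]
        norm_num
      have h5 : (M : ℝ) ^ (15 / 4 : ℝ) = (M : ℝ) ^ (3 / 4 : ℝ) * (M : ℝ) ^ 3 := by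
        rw [← Real.rpow_natCast, ← Real.rpow_add hM0]
        norm_num
      rw [h4, h5]
      have h6 : (0 : ℝ) ≤ (M : ℝ) ^ 3 := by positivity
      calc (T : ℝ) ≤ CC * (M : ℝ) ^ 3 := h2
        _ = 1 / 16 * ((16 * CC) * (M : ℝ) ^ 3) := by ring
        _ ≤ 1 / 16 * ((M : ℝ) ^ (3 / 4 : ℝ) * (M : ℝ) ^ 3) := by
            have := mul_le_mul_of_nonneg_right h3 h6
            linarith
    have h2 := Real.rpow_le_rpow (by positivity) h1 (show (0 : ℝ) ≤ 1 / 4 by norm_num)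
    have h3 : ((1 / 2 * (M : ℝ) ^ (15 / 16 : ℝ)) ^ 4) ^ (1 / 4 : ℝ) =
        1 / 2 * (M : ℝ) ^ (15 / 16 : ℝ) := by
      rw [← Real.rpow_natCast, ← Real.rpow_mul (by positivity)]
      norm_num
    rw [h3] at h2
    have h4 : (M : ℝ) ^ (15 / 16 : ℝ) ≤ (M : ℝ) ^ (1 - τ) :=
      Real.rpow_le_rpow_of_exponent_le hMR (by linarith)
    linarith
  refine hnum.trans (hcard.trans ?_)
  have hinj : StrictMono (nn q u0) := (hE q u0 0 hq hu1).2.2.2.1
  have hmain : ((range M).filter (fun v =>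
        Near (P.comp (FF q u0)) M τ v ∧ Squarefree (nn q u0 v))).card ≤
      ((Icc 1 T).filter (fun n => n ≡ a [MOD 8 * q] ∧ Squarefree n ∧ Congruent n ∧
        ∃ k : ℤ, |P.eval (n : ℝ) - k| ≤ (T : ℝ) ^ (-(τ / 4)))).card := by
    refine Finset.card_le_card_of_injOn (nn q u0) ?_ (hinj.injective.injOn)
    intro v hv
    rw [Finset.mem_coe, Finset.mem_filter, Finset.mem_range] at hv
    obtain ⟨hvM, hnear, hsq⟩ := hv
    obtain ⟨hev, hcong, hle, -, hmod⟩ := hE q u0 v hq hu1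
    rw [Finset.mem_coe, Finset.mem_filter, Finset.mem_Icc]
    refine ⟨⟨Nat.one_le_iff_ne_zero.2 hsq.ne_zero, ?_⟩, hmod a hu2, hsq, hcong, ?_⟩
    · refine hle.trans ?_
      refine Nat.mul_le_mul_left _ (Nat.pow_le_pow_left ?_ 3)
      unfold uu
      exact Nat.add_le_add_left (Nat.mul_le_mul_left _ hvM.le) _
    · set y : ℝ := (P.comp (FF q u0)).eval (v : ℝ) with hy
      set ρ : ℝ := (M : ℝ) ^ (-τ) with hρ
      have hyP : P.eval ((nn q u0 v : ℕ) : ℝ) = y := by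
        rw [hy, eval_comp, hev]
      refine ⟨⌊y + ρ⌋, ?_⟩
      rw [hyP]
      have h1 : Int.fract (y + ρ) < 2 * ρ := hnear
      have h2 := Int.fract_nonneg (y + ρ)
      have h3 : Int.fract (y + ρ) = y + ρ - ⌊y + ρ⌋ := rfl
      have h4 : |y - (⌊y + ρ⌋ : ℤ)| ≤ ρ := by
        rw [abs_le]
        constructor <;> linarith
      refine h4.trans ?_
      have h5 : (T : ℝ) ≤ (M : ℝ) ^ 4 := by exact_mod_cast hT4
      have h6 : (T : ℝ) ^ (τ / 4) ≤ (M : ℝ) ^ τ := by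
        have h7 := Real.rpow_le_rpow (by positivity) h5 (show (0 : ℝ) ≤ τ / 4 by positivity)
        rw [← Real.rpow_natCast, ← Real.rpow_mul hM0.le] at h7
        have h8 : (((4 : ℕ) : ℝ)) * (τ / 4) = τ := by push_cast; ring
        rw [h8] at h7
        exact h7
      rw [hρ, Real.rpow_neg hM0.le, Real.rpow_neg (by linarith)]
      exact inv_anti₀ (by positivity) h6
  exact_mod_cast hmain

end Pool.Agent.T6.H87.CNB
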