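import Pool.Agent.T6.H87.CNB.Defs

/-!
# Project CNB, module PR: the sum of `1 / p ^ 2` over the odd primes
-/

set_option autoImplicit false

namespace Pool.Agent.T6.H87.CNB

open Finset

lemma pr_step (n : ℕ) :
    ∑ p ∈ Icc 3 (16 + 2 * n), (if p.Prime then 1 / (p : ℝ) ^ 2 else 0) ≤
      18571 / 100000 + 1 / 2 * (1 / 16 - 1 / (16 + 2 * (n : ℝ))) := by
  induction n with
  | zero =>
    have h : ∑ p ∈ Icc (3 : ℕ) (16 + 2 * 0), (if Nat.Prime p then 1 / ((p : ℕ) : ℝ) ^ 2 else 0)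
        = 1 / 3 ^ 2 + 1 / 5 ^ 2 + 1 / 7 ^ 2 + 1 / 11 ^ 2 + 1 / 13 ^ 2 := by
      rw [← Finset.sum_filter]
      have e : (Icc 3 (16 + 2 * 0)).filter Nat.Prime = {3, 5, 7, 11, 13} := by decide
      rw [e]
      rw [Finset.sum_insert (by decide), Finset.sum_insert (by decide),
        Finset.sum_insert (by decide), Finset.sum_insert (by decide), Finset.sum_singleton]
      norm_num
    rw [h]
    norm_num
  | succ n ih =>
    have e1 : 16 + 2 * (n + 1) = (16 + 2 * n + 1) + 1 := by ring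
    rw [e1, Finset.sum_Icc_succ_top (by omega), Finset.sum_Icc_succ_top (by omega)]
    have hnp : ¬ (16 + 2 * n + 1 + 1).Prime := by
      intro hp
      have h2 : 2 ∣ 16 + 2 * n + 1 + 1 := by omega
      have := (Nat.prime_dvd_prime_iff_eq Nat.prime_two hp).1 h2
      omega
    rw [if_neg hnp, add_zero]
    have hterm : (if (16 + 2 * n + 1).Prime then 1 / (((16 + 2 * n + 1 : ℕ) : ℝ)) ^ 2 else 0) ≤
        1 / 2 * (1 / (16 + 2 * (n : ℝ)) - 1 / (16 + 2 * ((n : ℝ) + 1))) := by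
      have hn : (0 : ℝ) ≤ n := Nat.cast_nonneg n
      have h1 : 1 / (((16 + 2 * n + 1 : ℕ) : ℝ)) ^ 2 ≤
          1 / 2 * (1 / (16 + 2 * (n : ℝ)) - 1 / (16 + 2 * ((n : ℝ) + 1))) := by
        push_cast
        have e2 : 1 / 2 * (1 / (16 + 2 * (n : ℝ)) - 1 / (16 + 2 * ((n : ℝ) + 1)))
            = 1 / ((16 + 2 * (n : ℝ)) * (18 + 2 * (n : ℝ))) := by
          have a1 : (16 + 2 * (n : ℝ)) ≠ 0 := by positivity
          have a2 : (18 + 2 * (n : ℝ)) ≠ 0 := by positivity
          have a3 : (16 + 2 * ((n : ℝ) + 1)) = 18 + 2 * (n : ℝ) := by ring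
          rw [a3]
          field_simp
          ring
        rw [e2]
        apply one_div_le_one_div_of_le (by positivity)
        nlinarith
      split_ifs
      · exact h1
      · exact le_trans (by positivity) h1
    push_cast at *
    linarith

theorem pr : StmPR := by
  intro X
  rw [Finset.sum_filter]
  have h1 : ∑ p ∈ Icc 3 X, (if p.Prime then 1 / (p : ℝ) ^ 2 else 0) ≤
      ∑ p ∈ Icc 3 (16 + 2 * X), (if p.Prime then 1 / (p : ℝ) ^ 2 else 0) := by
    apply Finset.sum_le_sum_of_subset_of_nonneg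
    · exact Finset.Icc_subset_Icc_right (by omega)
    · intro i _ _
      split_ifs <;> positivity
  have h2 := pr_step X
  have h3 : (0 : ℝ) ≤ 1 / (16 + 2 * (X : ℝ)) := by positivity
  linarith

end Pool.Agent.T6.H87.CNB
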