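import Pool.Agent.T6.H87.CNB.Defs

/-!
# Project CNB (helper87), MP_8efaaa_nt: module SCL, good scales
-/

set_option autoImplicit false

namespace Pool.Agent.T6.H87.CNB

open Pool.Agent.T6.H35.EQ (Irr)

namespace ModSCL

lemma root_facts (M : ℕ) : ((M : ℝ) ^ (1 / 4 : ℝ)) ^ 4 = M ∧
    (M : ℝ) ^ (-(1 / 2) : ℝ) = (((M : ℝ) ^ (1 / 4 : ℝ)) ^ 2)⁻¹ := by
  have h0 : (0 : ℝ) ≤ M := Nat.cast_nonneg _
  refine ⟨?_, ?_⟩
  · rw [← Real.rpow_natCast, ← Real.rpow_mul h0]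
    norm_num
  · rw [Real.rpow_neg h0, ← Real.rpow_natCast, ← Real.rpow_mul h0]
    norm_num

lemma root_ge {M : ℕ} (hM : 256 ≤ M) : 4 ≤ (M : ℝ) ^ (1 / 4 : ℝ) := by
  have h0 : (0 : ℝ) ≤ (M : ℝ) ^ (1 / 4 : ℝ) := Real.rpow_nonneg (Nat.cast_nonneg _) _
  by_contra hc
  push Not at hc
  have h1 := pow_lt_pow_left₀ hc h0 (n := 4) (by norm_num)
  rw [(root_facts M).1] at h1
  have h2 : (256 : ℝ) ≤ M := by exact_mod_cast hM
  norm_num at h1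
  linarith

lemma root_succ {M : ℕ} (hM : 256 ≤ M) :
    (M : ℝ) ^ (1 / 4 : ℝ) ≤ ((M + 1 : ℕ) : ℝ) ^ (1 / 4 : ℝ) ∧
    ((M + 1 : ℕ) : ℝ) ^ (1 / 4 : ℝ) ≤ 2 * (M : ℝ) ^ (1 / 4 : ℝ) := by
  have h0 : (0 : ℝ) ≤ (M : ℝ) ^ (1 / 4 : ℝ) := Real.rpow_nonneg (Nat.cast_nonneg _) _
  have h2 : (256 : ℝ) ≤ M := by exact_mod_cast hM
  refine ⟨Real.rpow_le_rpow (Nat.cast_nonneg _) (by push_cast; linarith) (by norm_num), ?_⟩
  by_contra hc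
  push Not at hc
  have h1 := pow_lt_pow_left₀ hc (by positivity) (n := 4) (by norm_num)
  rw [(root_facts (M + 1)).1, mul_pow, (root_facts M).1] at h1
  push_cast at h1
  linarith

lemma step {θ x y : ℝ} {k k' a a' : ℤ} (hx : 4 ≤ x) (hxy : x ≤ y) (hy : y ≤ 2 * x)
    (hk : 1 ≤ k) (hk' : 1 ≤ k') (h1 : (k : ℝ) ≤ x) (h2 : (k' : ℝ) ≤ y)
    (h3 : |k * θ - a| ≤ (x ^ 2)⁻¹) (h4 : |k' * θ - a'| ≤ (y ^ 2)⁻¹) : a * k' = a' * k := by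
  have hx0 : 0 < x := by linarith
  have hy0 : 0 < y := by linarith
  have e : ((a * k' - a' * k : ℤ) : ℝ) = k * (k' * θ - a') - k' * (k * θ - a) := by
    push_cast; ring
  have b1 : (k : ℝ) * |k' * θ - a'| ≤ x * (y ^ 2)⁻¹ :=
    mul_le_mul h1 h4 (abs_nonneg _) hx0.le
  have b2 : (k' : ℝ) * |k * θ - a| ≤ y * (x ^ 2)⁻¹ :=
    mul_le_mul h2 h3 (abs_nonneg _) hy0.le
  have b3 : x * (y ^ 2)⁻¹ ≤ 1 / 4 := by
    rw [← div_eq_mul_inv, div_le_iff₀ (by positivity)]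
    nlinarith
  have b4 : y * (x ^ 2)⁻¹ ≤ 1 / 2 := by
    rw [← div_eq_mul_inv, div_le_iff₀ (by positivity)]
    nlinarith
  have hk0 : (0 : ℝ) ≤ k := by exact_mod_cast (by omega : (0 : ℤ) ≤ k)
  have hk0' : (0 : ℝ) ≤ k' := by exact_mod_cast (by omega : (0 : ℤ) ≤ k')
  have b5 : |((a * k' - a' * k : ℤ) : ℝ)| < 1 := by
    rw [e]
    calc |(k : ℝ) * (k' * θ - a') - k' * (k * θ - a)|
        ≤ |(k : ℝ) * (k' * θ - a')| + |(k' : ℝ) * (k * θ - a)| := abs_sub _ _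
      _ = (k : ℝ) * |k' * θ - a'| + k' * |k * θ - a| := by
          rw [abs_mul, abs_mul, abs_of_nonneg hk0, abs_of_nonneg hk0']
      _ < 1 := by linarith
  have b6 : |a * k' - a' * k| < 1 := by exact_mod_cast b5
  have b7 := Int.abs_lt_one_iff.1 b6
  omega

end ModSCL

open ModSCL in
theorem scl : StmSCL := by
  intro θ hθ M₀
  by_contra hc
  push Not at hc
  set N₀ : ℕ := max M₀ 256 with hN₀
  have hN1 : M₀ ≤ N₀ := le_max_left _ _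
  have hN2 : 256 ≤ N₀ := le_max_right _ _
  have H : ∀ M : ℕ, ∃ k : ℕ, ∃ a : ℤ, N₀ ≤ M → 1 ≤ k ∧ (k : ℝ) ≤ (M : ℝ) ^ (1 / 4 : ℝ) ∧
      |k * θ - a| ≤ (((M : ℝ) ^ (1 / 4 : ℝ)) ^ 2)⁻¹ := by
    intro M
    by_cases hM : N₀ ≤ M
    · have h1 := hc M (hN1.trans hM)
      unfold Irr at h1
      push Not at h1
      obtain ⟨q, h2, h3, a, h4⟩ := h1
      rw [(root_facts M).2] at h4
      exact ⟨q, a, fun _ => ⟨h2, h3, h4⟩⟩
    · exact ⟨0, 0, fun h => absurd h hM⟩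
  choose k a H using H
  have hst : ∀ M : ℕ, N₀ ≤ M → a M * (k (M + 1) : ℤ) = a (M + 1) * (k M : ℤ) := by
    intro M hM
    obtain ⟨h1, h2, h3⟩ := H M hM
    obtain ⟨h4, h5, h6⟩ := H (M + 1) (by omega)
    obtain ⟨h7, h8⟩ := root_succ (hN2.trans hM)
    exact step (θ := θ) (root_ge (hN2.trans hM)) h7 h8 (by omega) (by omega)
      (by exact_mod_cast h2) (by exact_mod_cast h5) (by exact_mod_cast h3) (by exact_mod_cast h6)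
  have hco : ∀ j : ℕ, a (N₀ + j) * (k N₀ : ℤ) = a N₀ * (k (N₀ + j) : ℤ) := by
    intro j
    induction j with
    | zero => simp
    | succ j ih =>
      have h1 := hst (N₀ + j) (by omega)
      have hk : (k (N₀ + j) : ℤ) ≠ 0 := by
        have := (H (N₀ + j) (by omega)).1
        omega
      have e : N₀ + (j + 1) = N₀ + j + 1 := rfl
      rw [e]
      apply mul_right_cancel₀ hk
      calc a (N₀ + j + 1) * (k N₀ : ℤ) * (k (N₀ + j) : ℤ)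
          = (a (N₀ + j + 1) * (k (N₀ + j) : ℤ)) * k N₀ := by ring
        _ = (a (N₀ + j) * (k (N₀ + j + 1) : ℤ)) * k N₀ := by rw [h1]
        _ = (a (N₀ + j) * (k N₀ : ℤ)) * k (N₀ + j + 1) := by ring
        _ = (a N₀ * (k (N₀ + j) : ℤ)) * k (N₀ + j + 1) := by rw [ih]
        _ = a N₀ * (k (N₀ + j + 1) : ℤ) * (k (N₀ + j) : ℤ) := by ring
  obtain ⟨hk1, -, -⟩ := H N₀ le_rfl
  set δ : ℝ := |k N₀ * θ - a N₀| with hδ
  have hδ0 : 0 < δ := by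
    rw [hδ, abs_pos]
    have h1 : Irrational ((k N₀ : ℕ) * θ - (a N₀ : ℤ)) :=
      (hθ.natCast_mul (by omega)).sub_intCast _
    exact h1.ne_zero
  -- a large `j`
  obtain ⟨j, hj⟩ := exists_nat_gt ((k N₀ : ℝ) ^ 2 / δ ^ 2)
  obtain ⟨h1, h2, h3⟩ := H (N₀ + j) (by omega)
  set x : ℝ := ((N₀ + j : ℕ) : ℝ) ^ (1 / 4 : ℝ) with hx
  have hx4 : x ^ 4 = ((N₀ + j : ℕ) : ℝ) := (root_facts (N₀ + j)).1
  have hx0 : 4 ≤ x := root_ge (by omega)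
  have hk0 : (0 : ℝ) < k N₀ := by exact_mod_cast (by omega : 0 < k N₀)
  have hkj : (1 : ℝ) ≤ k (N₀ + j) := by exact_mod_cast h1
  have e1 : (k (N₀ + j) : ℝ) * (k N₀ * θ - a N₀) = k N₀ * (k (N₀ + j) * θ - a (N₀ + j)) := by
    have h4 : (a (N₀ + j) : ℝ) * (k N₀ : ℝ) = a N₀ * (k (N₀ + j) : ℝ) := by
      exact_mod_cast hco j
    linear_combination h4
  have e2 : (k (N₀ + j) : ℝ) * δ = k N₀ * |k (N₀ + j) * θ - a (N₀ + j)| := by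
    rw [hδ, ← abs_of_nonneg (show (0 : ℝ) ≤ k (N₀ + j) by linarith), ← abs_mul,
      abs_of_nonneg (show (0 : ℝ) ≤ k (N₀ + j) by linarith), e1, abs_mul, abs_of_pos hk0]
  have h5 : δ ≤ k N₀ * (x ^ 2)⁻¹ := by
    calc δ ≤ (k (N₀ + j) : ℝ) * δ := by nlinarith
      _ = k N₀ * |k (N₀ + j) * θ - a (N₀ + j)| := e2
      _ ≤ k N₀ * (x ^ 2)⁻¹ := mul_le_mul_of_nonneg_left h3 hk0.le
  have h6 : δ * x ^ 2 ≤ k N₀ := by
    have hxx : 0 < x ^ 2 := by positivity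
    calc δ * x ^ 2 ≤ (k N₀ * (x ^ 2)⁻¹) * x ^ 2 := mul_le_mul_of_nonneg_right h5 hxx.le
      _ = k N₀ := by rw [mul_assoc, inv_mul_cancel₀ hxx.ne', mul_one]
  have h7 : δ ^ 2 * x ^ 4 ≤ (k N₀ : ℝ) ^ 2 := by
    have := pow_le_pow_left₀ (by positivity) h6 2
    calc δ ^ 2 * x ^ 4 = (δ * x ^ 2) ^ 2 := by ring
      _ ≤ _ := this
  rw [hx4] at h7
  rw [div_lt_iff₀ (by positivity)] at hj
  push_cast at h7
  have h8 : (0 : ℝ) ≤ N₀ := Nat.cast_nonneg _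
  nlinarith [pow_pos hδ0 2]

end Pool.Agent.T6.H87.CNB
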