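import Pool.Agent.T6.H87.CNB.Defs

/-!
# Project CNB, module SQ
-/

set_option autoImplicit false

namespace Pool.Agent.T6.H87.CNB

theorem sq : StmSQ := by
  intro q u0 v hq hu hpu hns
  rw [Nat.squarefree_iff_prime_squarefree] at hns
  push Not at hns
  obtain ⟨p, hp, hpn⟩ := hns
  have hpp : p ^ 2 ∣ nn q u0 v := by rw [pow_two]; exact hpn
  have hu1 : 1 ≤ uu q u0 v := by unfold uu; omega
  have hx : 1 ≤ 4 * q ^ 2 * uu q u0 v :=
    Nat.mul_pos (Nat.mul_pos (by norm_num) (pow_pos hq 2)) hu1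
  obtain ⟨a, ha⟩ : ∃ a, 4 * q ^ 2 * uu q u0 v = a + 1 := ⟨4 * q ^ 2 * uu q u0 v - 1, by omega⟩
  have hfac : 16 * q ^ 4 * uu q u0 v ^ 2 - 1 = a * (a + 2) := by
    have h : 16 * q ^ 4 * uu q u0 v ^ 2 = (4 * q ^ 2 * uu q u0 v) ^ 2 := by ring
    rw [h, ha]
    have h2 : (a + 1) ^ 2 = a * (a + 2) + 1 := by ring
    rw [h2, Nat.add_sub_cancel]
  have hn : nn q u0 v = uu q u0 v * (a * (a + 2)) := by unfold nn; rw [hfac]
  rw [hn] at hpp
  -- if `p ∣ a + 1` then `p ^ 2` is coprime to `a * (a + 2)`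
  have hcop : p ∣ a + 1 → p ^ 2 ∣ uu q u0 v := by
    intro hpa
    have h1 : Nat.Coprime p a := by
      rw [hp.coprime_iff_not_dvd]
      intro h
      have := (Nat.dvd_add_right h).mp hpa
      exact hp.one_lt.ne' (Nat.dvd_one.mp this)
    have h2 : Nat.Coprime p (a + 2) := by
      rw [hp.coprime_iff_not_dvd]
      intro h
      have h3 : p ∣ (a + 1) + 1 := h
      have := (Nat.dvd_add_right hpa).mp h3
      exact hp.one_lt.ne' (Nat.dvd_one.mp this)
    have h3 : Nat.Coprime (p ^ 2) (a * (a + 2)) := (h1.mul_right h2).pow_left 2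
    exact h3.dvd_of_dvd_mul_right hpp
  by_cases hp8 : p ∣ 8 * q
  · exfalso
    have h64 : p ^ 2 ∣ 64 * q ^ 2 := by
      have := pow_dvd_pow_of_dvd hp8 2
      have h : (8 * q) ^ 2 = 64 * q ^ 2 := by ring
      rwa [h] at this
    have hpa : p ∣ a + 1 := by
      rw [← ha]
      rcases (hp.dvd_mul).mp hp8 with h | h
      · have h2 : p ∣ 2 := by
          have : p ∣ 2 ^ 3 := by simpa using h
          exact hp.dvd_of_dvd_pow this
        exact Dvd.dvd.mul_right (Dvd.dvd.mul_right (h2.trans (by norm_num)) _) _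
      · exact Dvd.dvd.mul_right (Dvd.dvd.mul_left (Dvd.dvd.trans h (dvd_pow_self q (by norm_num))) _) _
    have hu' := hcop hpa
    have : p ^ 2 ∣ u0 := by
      have h1 : p ^ 2 ∣ u0 + 64 * q ^ 2 * v := hu'
      exact (Nat.dvd_add_left (Dvd.dvd.mul_right h64 v)).mp h1
    exact hpu p hp hp8 this
  · refine ⟨p, hp, hp8, ?_⟩
    have hp2 : ¬ p ∣ 2 := by
      intro h
      exact hp8 (Dvd.dvd.mul_right (h.trans (by norm_num)) _)
    unfold Bad
    rw [ha, Nat.add_sub_cancel]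
    by_cases hpa : p ∣ a + 1
    · exact Or.inl (hcop hpa)
    · have hpu' : ¬ p ∣ uu q u0 v := by
        intro h
        apply hpa
        rw [← ha]
        exact Dvd.dvd.mul_left h _
      have h1 : Nat.Coprime (p ^ 2) (uu q u0 v) := ((hp.coprime_iff_not_dvd).mpr hpu').pow_left 2
      have h2 : p ^ 2 ∣ a * (a + 2) := h1.dvd_of_dvd_mul_left hpp
      by_cases h3 : p ∣ a
      · have h4 : ¬ p ∣ a + 2 := by
          intro h
          exact hp2 ((Nat.dvd_add_right h3).mp h)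
        have h5 : Nat.Coprime (p ^ 2) (a + 2) := ((hp.coprime_iff_not_dvd).mpr h4).pow_left 2
        exact Or.inr (Or.inl (h5.dvd_of_dvd_mul_right h2))
      · have h5 : Nat.Coprime (p ^ 2) a := ((hp.coprime_iff_not_dvd).mpr h3).pow_left 2
        exact Or.inr (Or.inr (h5.dvd_of_dvd_mul_left h2))

end Pool.Agent.T6.H87.CNB
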