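import Pool.Agent.T6.H87.CNB.Defs

/-!
# Module U0 of project CNB (helper54): the class of `u`
-/

set_option autoImplicit false

namespace Pool.Agent.T6.H87.CNB

/-- U0: the class of `u` -/
theorem u0_exists : StmU0 := by
  intro q a hq hsq
  set n : ℕ := 8 * q with hn
  have hn0 : 0 < n := by omega
  have hn1 : 1 < n := by omega
  set g : ℕ := Nat.gcd a n with hg
  have hg0 : 0 < g := Nat.gcd_pos_of_pos_right a hn0
  obtain ⟨a', ha'⟩ : g ∣ a := Nat.gcd_dvd_left a n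
  obtain ⟨n', hn'⟩ : g ∣ n := Nat.gcd_dvd_right a n
  have hcop : Nat.Coprime a' n' := by
    have h1 : Nat.gcd (g * a') (g * n') = g * Nat.gcd a' n' := Nat.gcd_mul_left g a' n'
    rw [← ha', ← hn', ← hg] at h1
    have h2 : g * Nat.gcd a' n' = g * 1 := by rw [← h1, mul_one]
    exact Nat.eq_of_mul_eq_mul_left hg0 h2
  have hdvd : n' ∣ n := ⟨g, by rw [hn', mul_comm]⟩
  have : NeZero n := ⟨hn0.ne'⟩
  set c : (ZMod n')ˣ := ZMod.unitOfCoprime a' hcop with hc
  obtain ⟨w, hw⟩ := ZMod.unitsMap_surjective hdvd (-c)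
  set w0 : ℕ := (w : ZMod n).val with hw0
  have hcw : Nat.Coprime w0 n := ZMod.val_coe_unit_coprime w
  have hw1 : 1 ≤ w0 := by
    rcases Nat.eq_zero_or_pos w0 with h | h
    · rw [h, Nat.coprime_zero_left] at hcw
      omega
    · exact h
  have hkey : ((w0 + a' : ℕ) : ZMod n') = 0 := by
    have h1 : ((ZMod.unitsMap hdvd w : (ZMod n')ˣ) : ZMod n') = -(a' : ZMod n') := by
      rw [hw, Units.val_neg, hc, ZMod.coe_unitOfCoprime]
    have h2 : ((ZMod.unitsMap hdvd w : (ZMod n')ˣ) : ZMod n') = (w0 : ZMod n') := by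
      rw [ZMod.unitsMap_val, ZMod.cast_eq_val]
    rw [Nat.cast_add, ← h2, h1]
    ring
  have hdw : n' ∣ w0 + a' := (ZMod.natCast_eq_zero_iff _ _).mp hkey
  refine ⟨g * w0, Nat.mul_pos hg0 hw1, ?_, ?_⟩
  · rw [ha', hn', ← mul_add]
    exact Nat.mul_dvd_mul_left g hdw
  · intro p hp hpn hpu
    have hpw : Nat.Coprime p w0 :=
      (Nat.Coprime.coprime_dvd_left hpn hcw.symm)
    have h1 : p ^ 2 ∣ g := (Nat.Coprime.pow_left 2 hpw).dvd_of_dvd_mul_right hpu
    have h2 := hsq p (by rw [← sq]; exact h1)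
    exact hp.one_lt.ne' (Nat.isUnit_iff.mp h2)

end Pool.Agent.T6.H87.CNB
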